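import Mathlib
import Pool.Agent.VM.StmtsW
import Pool.Agent.Helper69_Weyl.Divisor

/-!
# RTU: the number of `k`-th roots of unity modulo `u`
-/

set_option autoImplicit false

namespace Pool.Agent.VM.H39

theorem pdv {p : ℤ} (hp : Prime p) (v : ℕ) (b : ℤ) (hb : ¬ p ^ (v + 1) ∣ b) :
    ∀ (m : ℕ) (a : ℤ), p ^ (m + v) ∣ a * b → p ^ m ∣ a := by
  intro m
  induction m with
  | zero => intro a _; simp
  | succ m ih =>
    intro a h
    have h1 : p ^ m ∣ a := ih a (dvd_trans (pow_dvd_pow p (by omega)) h)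
    obtain ⟨a', rfl⟩ := h1
    have h2 : p ^ (v + 1) ∣ a' * b := by
      have h3 : p ^ m * p ^ (v + 1) ∣ p ^ m * (a' * b) := by
        rw [← pow_add, ← mul_assoc]
        have : m + (v + 1) = m + 1 + v := by omega
        rw [this]; exact h
      exact (mul_dvd_mul_iff_left (pow_ne_zero _ hp.ne_zero)).1 h3
    by_cases h4 : p ∣ a'
    · rw [pow_succ]; exact mul_dvd_mul_left _ h4
    · exact absurd (hp.pow_dvd_of_dvd_mul_left (v + 1) h4 h2) hb

theorem root_close {p k n v : ℕ} (hp : p.Prime) (hk : 1 ≤ k) (hv : ¬ p ^ (v + 1) ∣ k)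
    (hn : v ≤ n) {x y : ℤ} (hxy : (p : ℤ) ^ (v + 1) ∣ x - y) (hy : ¬ (p : ℤ) ∣ y)
    (h : (p : ℤ) ^ n ∣ x ^ k - y ^ k) : (p : ℤ) ^ (n - v) ∣ x - y := by
  have hpp : Prime (p : ℤ) := Nat.prime_iff_prime_int.1 hp
  set S : ℤ := ∑ i ∈ Finset.range k, x ^ i * y ^ (k - 1 - i) with hS
  have e1 : (x - y) * S = x ^ k - y ^ k := by
    rw [mul_comm, hS]
    exact (Commute.all x y).geom_sum₂_mul k
  have hS1 : ¬ (p : ℤ) ^ (v + 1) ∣ S := by
    intro hcon
    have h1 : (p : ℤ) ^ (v + 1) ∣ S - (k : ℤ) * y ^ (k - 1) := by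
      have : S - (k : ℤ) * y ^ (k - 1) =
          ∑ i ∈ Finset.range k, (x ^ i * y ^ (k - 1 - i) - y ^ (k - 1)) := by
        rw [Finset.sum_sub_distrib, hS]
        simp
      rw [this]
      apply Finset.dvd_sum
      intro i hi
      have hi' := Finset.mem_range.1 hi
      have e2 : y ^ (k - 1) = y ^ i * y ^ (k - 1 - i) := by
        rw [← pow_add]; congr 1; omega
      rw [e2, ← sub_mul]
      exact Dvd.dvd.mul_right (hxy.trans (sub_dvd_pow_sub_pow x y i)) _
    have h2 : (p : ℤ) ^ (v + 1) ∣ y ^ (k - 1) * (k : ℤ) := by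
      have := dvd_sub hcon h1
      have e3 : S - (S - (k : ℤ) * y ^ (k - 1)) = y ^ (k - 1) * (k : ℤ) := by ring
      rwa [e3] at this
    have h3 : (p : ℤ) ^ (v + 1) ∣ (k : ℤ) :=
      hpp.pow_dvd_of_dvd_mul_left (v + 1) (fun hc => hy (hpp.dvd_of_dvd_pow hc)) h2
    exact hv (by exact_mod_cast h3)
  refine pdv hpp v S hS1 (n - v) (x - y) ?_
  rw [Nat.sub_add_cancel hn, e1]
  exact h

/-- the set of the roots of unity -/
def RS (k u : ℕ) : Finset ℕ :=
  (Finset.range u).filter (fun x => Nat.Coprime x u ∧ x ^ k ≡ 1 [MOD u])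

theorem mem_RS {k u x : ℕ} : x ∈ RS k u ↔ x < u ∧ Nat.Coprime x u ∧ x ^ k ≡ 1 [MOD u] := by
  simp [RS]

theorem fiber_le {p k n v c : ℕ} (hp : p.Prime) (hk : 1 ≤ k) (hv : ¬ p ^ (v + 1) ∣ k)
    (hn : v < n) : ((RS k (p ^ n)).filter (fun x => x % p ^ (v + 1) = c)).card ≤ p ^ v := by
  rcases Finset.eq_empty_or_nonempty ((RS k (p ^ n)).filter (fun x => x % p ^ (v + 1) = c)) with
    h0 | ⟨y, hy⟩
  · rw [h0]; simp
  have key : ∀ x ∈ (RS k (p ^ n)).filter (fun x => x % p ^ (v + 1) = c),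
      x % p ^ (n - v) = y % p ^ (n - v) := by
    intro x hx
    rw [Finset.mem_filter, mem_RS] at hx hy
    obtain ⟨⟨hx1, hx2, hx3⟩, hx4⟩ := hx
    obtain ⟨⟨hy1, hy2, hy3⟩, hy4⟩ := hy
    have h1 : (y : ℤ) ≡ x [ZMOD ((p ^ (v + 1) : ℕ) : ℤ)] :=
      Int.natCast_modEq_iff.2 (hy4.trans hx4.symm)
    have h2 : ((y ^ k : ℕ) : ℤ) ≡ ((x ^ k : ℕ) : ℤ) [ZMOD ((p ^ n : ℕ) : ℤ)] :=
      Int.natCast_modEq_iff.2 (hy3.trans hx3.symm)
    have h3 := h1.dvd
    have h4 := h2.dvd
    push_cast at h3 h4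
    have hyp : ¬ (p : ℤ) ∣ y := by
      intro hc
      have hc' : p ∣ y := by exact_mod_cast hc
      have : Nat.Coprime y p := Nat.Coprime.coprime_dvd_right (dvd_pow_self p (by omega)) hy2
      have := Nat.dvd_gcd hc' (dvd_refl p)
      rw [show Nat.gcd y p = 1 by assumption] at this
      exact hp.one_lt.ne' (Nat.dvd_one.1 this)
    have h5 := root_close hp hk hv hn.le h3 hyp h4
    have h6 : (y : ℤ) ≡ x [ZMOD ((p ^ (n - v) : ℕ) : ℤ)] := by
      apply Int.modEq_of_dvd
      push_cast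
      exact h5
    exact (Int.natCast_modEq_iff.1 h6).symm
  have hmaps : ∀ x ∈ (RS k (p ^ n)).filter (fun x => x % p ^ (v + 1) = c),
      x / p ^ (n - v) ∈ Finset.range (p ^ v) := by
    intro x hx
    rw [Finset.mem_filter, mem_RS] at hx
    rw [Finset.mem_range]
    apply Nat.div_lt_of_lt_mul
    rw [← pow_add, Nat.sub_add_cancel hn.le]
    exact hx.1.1
  calc _ ≤ (Finset.range (p ^ v)).card := by
        refine Finset.card_le_card_of_injOn (fun x => x / p ^ (n - v)) hmaps ?_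
        intro a ha b hb hab
        simp only at hab
        rw [← Nat.div_add_mod a (p ^ (n - v)), ← Nat.div_add_mod b (p ^ (n - v)), hab,
          key a ha, key b hb]
    _ = p ^ v := Finset.card_range _

theorem RS_prime {p k : ℕ} (hp : p.Prime) (hk : 1 ≤ k) :
    ((Finset.range p).filter (fun x => x ^ k ≡ 1 [MOD p])).card ≤ k := by
  have := Fact.mk hp
  calc _ ≤ (Polynomial.nthRoots k (1 : ZMod p)).toFinset.card := by
        refine Finset.card_le_card_of_injOn (fun x : ℕ => (x : ZMod p)) ?_ ?_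
        · intro x hx
          rw [Finset.mem_coe, Finset.mem_filter] at hx
          rw [Finset.mem_coe, Multiset.mem_toFinset, Polynomial.mem_nthRoots (by omega)]
          have := (ZMod.natCast_eq_natCast_iff _ _ _).2 hx.2
          push_cast at this
          exact this
        · intro x hx y hy hxy
          rw [Finset.mem_coe, Finset.mem_filter, Finset.mem_range] at hx hy
          have := (ZMod.natCast_eq_natCast_iff _ _ _).1 hxy
          exact Nat.ModEq.eq_of_lt_of_lt this hx.1 hy.1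
    _ ≤ Multiset.card (Polynomial.nthRoots k (1 : ZMod p)) := Multiset.toFinset_card_le _
    _ ≤ k := Polynomial.card_nthRoots k 1

theorem RS_pow {p k n : ℕ} (hp : p.Prime) (hk : 1 ≤ k) : (RS k (p ^ n)).card ≤ k ^ 3 := by
  set v := k.factorization p with hvdef
  have hk3 : k ≤ k ^ 3 := Nat.le_self_pow (by norm_num) k
  have hv1 : p ^ v ∣ k := Nat.ordProj_dvd k p
  have hv2 : ¬ p ^ (v + 1) ∣ k := Nat.pow_succ_factorization_not_dvd (by omega) hp
  have hv3 : p ^ v ≤ k := Nat.le_of_dvd (by omega) hv1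
  rcases le_or_gt n v with hn | hn
  · calc (RS k (p ^ n)).card ≤ (Finset.range (p ^ n)).card := Finset.card_filter_le _ _
      _ = p ^ n := Finset.card_range _
      _ ≤ p ^ v := Nat.pow_le_pow_right hp.pos hn
      _ ≤ k ^ 3 := hv3.trans hk3
  · have h1 : (RS k (p ^ n)).card ≤ p ^ v * ((RS k (p ^ n)).image (fun x => x % p ^ (v + 1))).card := by
      apply Finset.card_le_mul_card_image
      intro c _
      exact fiber_le hp hk hv2 hn
    rcases Nat.eq_zero_or_pos v with h0 | h0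
    · have h2 : ((RS k (p ^ n)).image (fun x => x % p ^ (v + 1))).card ≤ k := by
        refine le_trans (Finset.card_le_card ?_) (RS_prime hp hk)
        intro c hc
        rw [Finset.mem_image] at hc
        obtain ⟨x, hx, rfl⟩ := hc
        rw [mem_RS] at hx
        rw [Finset.mem_filter, Finset.mem_range, h0, zero_add, pow_one]
        refine ⟨Nat.mod_lt _ hp.pos, ?_⟩
        have h3 : x ^ k ≡ 1 [MOD p] := hx.2.2.of_dvd (dvd_pow_self p (by omega))
        exact ((Nat.mod_modEq x p).pow k).trans h3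
      calc _ ≤ p ^ v * k := h1.trans (by gcongr)
        _ = k := by rw [h0]; simp
        _ ≤ k ^ 3 := hk3
    · have h2 : ((RS k (p ^ n)).image (fun x => x % p ^ (v + 1))).card ≤ p ^ (v + 1) := by
        calc _ ≤ (Finset.range (p ^ (v + 1))).card := by
              apply Finset.card_le_card
              intro c hc
              rw [Finset.mem_image] at hc
              obtain ⟨x, _, rfl⟩ := hc
              exact Finset.mem_range.2 (Nat.mod_lt _ (Nat.pow_pos hp.pos))
          _ = _ := Finset.card_range _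
      have h3 : p ≤ p ^ v := Nat.le_self_pow (by omega) p
      calc _ ≤ p ^ v * p ^ (v + 1) := h1.trans (by gcongr)
        _ = p ^ v * (p ^ v * p) := by rw [pow_succ]
        _ ≤ k * (k * k) := by gcongr; exact h3.trans hv3
        _ = k ^ 3 := by ring

theorem RS_mul {k a b : ℕ} (hab : Nat.Coprime a b) (ha : 0 < a) (hb : 0 < b) :
    (RS k (a * b)).card ≤ (RS k a).card * (RS k b).card := by
  rw [← Finset.card_product]
  refine Finset.card_le_card_of_injOn (fun x => (x % a, x % b)) ?_ ?_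
  · intro x hx
    rw [Finset.mem_coe, mem_RS] at hx
    obtain ⟨_, h2, h3⟩ := hx
    rw [Finset.mem_coe, Finset.mem_product, mem_RS, mem_RS]
    refine ⟨⟨Nat.mod_lt _ ha, ?_, ?_⟩, ⟨Nat.mod_lt _ hb, ?_, ?_⟩⟩
    · exact (Nat.mod_modEq x a).gcd_eq.trans (Nat.Coprime.coprime_dvd_right (dvd_mul_right a b) h2)
    · exact ((Nat.mod_modEq x a).pow k).trans (h3.of_dvd (dvd_mul_right a b))
    · exact (Nat.mod_modEq x b).gcd_eq.trans (Nat.Coprime.coprime_dvd_right (dvd_mul_left b a) h2)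
    · exact ((Nat.mod_modEq x b).pow k).trans (h3.of_dvd (dvd_mul_left b a))
  · intro x hx y hy hxy
    rw [Finset.mem_coe, mem_RS] at hx hy
    simp only [Prod.mk.injEq] at hxy
    have h1 : x ≡ y [MOD a * b] := (Nat.modEq_and_modEq_iff_modEq_mul hab).1 ⟨hxy.1, hxy.2⟩
    exact Nat.ModEq.eq_of_lt_of_lt h1 hx.1 hy.1

theorem RS_le {k m : ℕ} (hk : 1 ≤ k) (hm : k ^ 3 ≤ 2 ^ m) (u : ℕ) (hu : 1 ≤ u) :
    (RS k u).card ≤ u.divisors.card ^ m := by
  induction u using Nat.recOnPosPrimePosCoprime with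
  | zero => omega
  | one =>
    calc (RS k 1).card ≤ (Finset.range 1).card := Finset.card_filter_le _ _
      _ = 1 := by simp
      _ ≤ _ := by simp
  | prime_pow p n hp hn =>
    have h2 : 2 ≤ (p ^ n).divisors.card := by
      rw [Nat.divisors_prime_pow hp, Finset.card_map, Finset.card_range]; omega
    exact (RS_pow hp hk).trans (hm.trans (Nat.pow_le_pow_left h2 m))
  | coprime a b ha hb hab iha ihb =>
    rw [hab.card_divisors_mul, mul_pow]
    exact (RS_mul hab (by omega) (by omega)).trans (Nat.mul_le_mul (iha (by omega)) (ihb (by omega)))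

/-- RTU -/
theorem rtu : RtuStmt := by
  intro k hk ε hε
  obtain ⟨m, hm⟩ : ∃ m : ℕ, k ^ 3 ≤ 2 ^ m := ⟨k ^ 3, (Nat.lt_two_pow_self).le⟩
  obtain ⟨C, hC1, hC⟩ := Helper69_Weyl.exists_card_divisors_le (ε / (m + 1)) (by positivity)
  refine ⟨C ^ (m + 1), by positivity, fun u hu => ?_⟩
  have h1 := RS_le hk (m := m + 1) (hm.trans (Nat.pow_le_pow_right (by norm_num) (by omega))) u hu
  have h2 : (((RS k u).card : ℕ) : ℝ) ≤ ((u.divisors.card : ℕ) : ℝ) ^ (m + 1) := by exact_mod_cast h1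
  have h3 := hC u (by omega)
  have hu0 : (0 : ℝ) ≤ u := by positivity
  calc _ ≤ ((u.divisors.card : ℕ) : ℝ) ^ (m + 1) := h2
    _ ≤ (C * (u : ℝ) ^ (ε / (m + 1))) ^ (m + 1) := by gcongr
    _ = C ^ (m + 1) * (u : ℝ) ^ ε := by
      rw [mul_pow, ← Real.rpow_natCast ((u : ℝ) ^ (ε / (m + 1))), ← Real.rpow_mul hu0]
      congr 2
      push_cast
      field_simp

end Pool.Agent.VM.H39
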