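import Mathlib
import Pool.Agent.VM.StmtsW

/-!
# PRM: many primes in `(D, 2 D]`
-/

set_option autoImplicit false

namespace Pool.Agent.VM.H39

/-- the central binomial coefficient and the primes in `(n, 2 n]` -/
theorem cb_le (n : ℕ) (n_large : 2 < n) :
    Nat.centralBinom n ≤
      (2 * n) ^ (Nat.sqrt (2 * n) + ((Finset.Ioc n (2 * n)).filter Nat.Prime).card) *
        4 ^ (2 * n / 3) := by
  have n_pos : 0 < n := (Nat.zero_le _).trans_lt n_large
  have n2_pos : 1 ≤ 2 * n := mul_pos (zero_lt_two' ℕ) n_pos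
  set f : ℕ → ℕ := fun x => x ^ n.centralBinom.factorization x with hf
  set S : Finset ℕ := (Finset.range (2 * n + 1)).filter Nat.Prime with hS
  have h1 : ∏ x ∈ S, f x = Nat.centralBinom n := by
    rw [← n.prod_pow_factorization_centralBinom]
    refine Finset.prod_filter_of_ne fun p _ h => ?_
    contrapose h
    simp only [hf] at *
    rw [Nat.factorization_eq_zero_of_not_prime n.centralBinom h, pow_zero]
  have hle : ∀ p, f p ≤ 2 * n := fun p => Nat.pow_factorization_choose_le (by omega)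
  rw [← h1, ← Finset.prod_filter_mul_prod_filter_not S (· ≤ Nat.sqrt (2 * n))]
  have h2 : ∏ x ∈ S.filter (· ≤ Nat.sqrt (2 * n)), f x ≤ (2 * n) ^ Nat.sqrt (2 * n) := by
    refine (Finset.prod_le_prod' fun p _ => hle p).trans ?_
    have : (Finset.Icc 1 (Nat.sqrt (2 * n))).card = Nat.sqrt (2 * n) := by
      rw [Nat.card_Icc, Nat.add_sub_cancel]
    rw [Finset.prod_const]
    refine pow_right_mono₀ n2_pos ((Finset.card_le_card fun x hx => ?_).trans this.le)
    obtain ⟨h1, h2⟩ := Finset.mem_filter.1 hx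
    exact Finset.mem_Icc.mpr ⟨(Finset.mem_filter.1 h1).2.one_lt.le, h2⟩
  set T : Finset ℕ := S.filter (fun x => ¬ x ≤ Nat.sqrt (2 * n)) with hT
  have h3 : ∏ x ∈ T.filter (fun x => ¬ x ≤ n), f x ≤
      (2 * n) ^ ((Finset.Ioc n (2 * n)).filter Nat.Prime).card := by
    refine (Finset.prod_le_prod' fun p _ => hle p).trans ?_
    rw [Finset.prod_const]
    refine pow_right_mono₀ n2_pos (Finset.card_le_card fun x hx => ?_)
    simp only [hT, hS, Finset.mem_filter, Finset.mem_range, not_le] at hx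
    simp only [Finset.mem_filter, Finset.mem_Ioc]
    exact ⟨⟨hx.2, by omega⟩, hx.1.1.2⟩
  have h4 : ∏ x ∈ T.filter (fun x => x ≤ n), f x ≤ 4 ^ (2 * n / 3) := by
    have h5 : ∏ x ∈ (T.filter (fun x => x ≤ n)).filter (fun x => x ≤ 2 * n / 3), f x =
        ∏ x ∈ T.filter (fun x => x ≤ n), f x := by
      refine Finset.prod_filter_of_ne fun p hp h => ?_
      by_contra hcon
      apply h
      simp only [hf]
      rw [Nat.factorization_centralBinom_of_two_mul_self_lt_three_mul n_large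
        (Finset.mem_filter.1 hp).2 (by omega), pow_zero]
    rw [← h5]
    refine le_trans ?_ (primorial_le_four_pow (2 * n / 3))
    refine (Finset.prod_le_prod' fun p hp => (?_ : f p ≤ p)).trans ?_
    · simp only [hT, hS, Finset.mem_filter, Finset.mem_range, not_le] at hp
      obtain ⟨⟨⟨⟨_, h1⟩, h2⟩, _⟩, _⟩ := hp
      refine (pow_right_mono₀ h1.one_lt.le ?_).trans (pow_one p).le
      exact Nat.factorization_choose_le_one (Nat.sqrt_lt'.mp h2)
    · rw [primorial]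
      refine Finset.prod_le_prod_of_subset_of_one_le' (fun p hp => ?_) ?_
      · simp only [hT, hS, Finset.mem_filter, Finset.mem_range, not_le] at hp
        obtain ⟨⟨⟨⟨_, h1⟩, h2⟩, _⟩, h3⟩ := hp
        simp only [Finset.mem_filter, Finset.mem_range]
        exact ⟨by omega, h1⟩
      · exact fun p hp _ => (Finset.mem_filter.1 hp).2.one_lt.le
  rw [← Finset.prod_filter_mul_prod_filter_not T (fun x => x ≤ n)]
  calc _ ≤ (2 * n) ^ Nat.sqrt (2 * n) * (4 ^ (2 * n / 3) *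
        (2 * n) ^ ((Finset.Ioc n (2 * n)).filter Nat.Prime).card) := by gcongr
    _ = _ := by rw [pow_add]; ring

theorem prm_aux (n : ℕ) (hn : 4 ≤ n) :
    (n : ℝ) / 3 * Real.log 4 ≤
      ((Real.sqrt (2 * n)) + 1 + (((Finset.Ioc n (2 * n)).filter Nat.Prime).card : ℝ)) *
        Real.log (2 * n) := by
  have h1 := Nat.four_pow_lt_mul_centralBinom n hn
  have h2 := cb_le n (by omega)
  set N := ((Finset.Ioc n (2 * n)).filter Nat.Prime).card with hN
  have h3 : 4 ^ n ≤ (2 * n) ^ (Nat.sqrt (2 * n) + N + 1) * 4 ^ (2 * n / 3) := by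
    calc 4 ^ n ≤ n * n.centralBinom := h1.le
      _ ≤ (2 * n) * ((2 * n) ^ (Nat.sqrt (2 * n) + N) * 4 ^ (2 * n / 3)) := by gcongr; omega
      _ = _ := by rw [pow_succ]; ring
  have h4 : (4 : ℝ) ^ n ≤ ((2 * n : ℝ)) ^ (Nat.sqrt (2 * n) + N + 1) * 4 ^ (2 * n / 3) := by
    exact_mod_cast h3
  have h5 := Real.log_le_log (by positivity) h4
  have hnr : (4 : ℝ) ≤ n := by exact_mod_cast hn
  rw [Real.log_mul (by positivity) (by positivity), Real.log_pow, Real.log_pow, Real.log_pow] at h5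
  have h6 : ((2 * n / 3 : ℕ) : ℝ) ≤ 2 * n / 3 := by
    have := @Nat.cast_div_le ℝ _ _ _ (2 * n) 3
    push_cast at this ⊢
    exact this
  have h7 : ((Nat.sqrt (2 * n) : ℕ) : ℝ) ≤ Real.sqrt (2 * n) := by
    have := @Real.nat_sqrt_le_real_sqrt (2 * n)
    push_cast at this ⊢
    exact this
  have h8 : 0 < Real.log 4 := Real.log_pos (by norm_num)
  have h9 : 0 < Real.log (2 * n) := Real.log_pos (by linarith)
  push_cast at h5
  have h10 : ((2 * n / 3 : ℕ) : ℝ) * Real.log 4 ≤ 2 * n / 3 * Real.log 4 := by gcongr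
  have h11 : ((Nat.sqrt (2 * n) : ℕ) : ℝ) * Real.log (2 * n) ≤
      Real.sqrt (2 * n) * Real.log (2 * n) := by gcongr
  nlinarith [h5, h10, h11]

/-- PRM -/
theorem prm : PrmStmt := by
  intro ε hε
  set δ : ℝ := min ε (1 / 2) / 2 with hδ
  have hδ0 : 0 < δ := by
    have : 0 < min ε (1 / 2) := lt_min hε (by norm_num)
    rw [hδ]; linarith
  have hδ1 : 2 * δ ≤ ε := by
    have := min_le_left ε (1 / 2)
    rw [hδ]; linarith
  have hδ2 : 2 * δ ≤ 1 / 2 := by
    have := min_le_right ε (1 / 2)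
    rw [hδ]; linarith
  have hl4 : 0 < Real.log 4 := Real.log_pos (by norm_num)
  obtain ⟨D₀, hD₀⟩ := exists_nat_gt ((24 / (δ * Real.log 4)) ^ (1 / δ))
  refine ⟨max D₀ 4, fun D hD => ?_⟩
  have hD4 : 4 ≤ D := le_trans (le_max_right _ _) hD
  have hDr : (4 : ℝ) ≤ D := by exact_mod_cast hD4
  have hD0 : (D₀ : ℝ) ≤ D := by exact_mod_cast le_trans (le_max_left _ _) hD
  have hx : 24 / (δ * Real.log 4) ≤ (D : ℝ) ^ δ := by
    have h0 : 0 ≤ 24 / (δ * Real.log 4) := by positivity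
    calc 24 / (δ * Real.log 4) = ((24 / (δ * Real.log 4)) ^ (1 / δ)) ^ δ := by
          rw [← Real.rpow_mul h0, one_div, inv_mul_cancel₀ hδ0.ne', Real.rpow_one]
      _ ≤ (D : ℝ) ^ δ := by
          apply Real.rpow_le_rpow (by positivity) _ hδ0.le
          linarith
  have hmain := prm_aux D hD4
  set N : ℝ := (((Finset.Ioc D (2 * D)).filter Nat.Prime).card : ℝ) with hN
  have hN0 : 0 ≤ N := by rw [hN]; positivity
  by_contra hcon
  push Not at hcon
  have hD1 : (1 : ℝ) ≤ D := by linarith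
  have e1 : N < (D : ℝ) ^ (1 - 2 * δ) :=
    hcon.trans_le (Real.rpow_le_rpow_of_exponent_le hD1 (by linarith))
  have e2 : 1 ≤ (D : ℝ) ^ (1 - 2 * δ) := Real.one_le_rpow hD1 (by linarith)
  have e3 : Real.sqrt (2 * D) ≤ 2 * (D : ℝ) ^ (1 - 2 * δ) := by
    have a1 : Real.sqrt (2 * D) ≤ 2 * Real.sqrt D := by
      rw [Real.sqrt_mul (by norm_num)]
      gcongr
      rw [Real.sqrt_le_left (by norm_num)]
      norm_num
    have a2 : Real.sqrt D ≤ (D : ℝ) ^ (1 - 2 * δ) := by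
      rw [Real.sqrt_eq_rpow]
      exact Real.rpow_le_rpow_of_exponent_le hD1 (by linarith)
    linarith
  have e4 : Real.log (2 * D) ≤ (2 * D : ℝ) ^ δ / δ := Real.log_le_rpow_div (by positivity) hδ0
  have e5 : (2 * D : ℝ) ^ δ ≤ 2 * (D : ℝ) ^ δ := by
    rw [Real.mul_rpow (by norm_num) (by positivity)]
    gcongr
    calc (2 : ℝ) ^ δ ≤ 2 ^ (1 : ℝ) := Real.rpow_le_rpow_of_exponent_le (by norm_num) (by linarith)
      _ = 2 := Real.rpow_one _
  have hlog : 0 < Real.log (2 * D) := Real.log_pos (by linarith)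
  have e6 : Real.log (2 * D) ≤ 2 * (D : ℝ) ^ δ / δ := e4.trans (by gcongr)
  have e8 : (Real.sqrt (2 * D) + 1 + N) * Real.log (2 * D) <
      (4 * (D : ℝ) ^ (1 - 2 * δ)) * (2 * (D : ℝ) ^ δ / δ) := by
    calc (Real.sqrt (2 * D) + 1 + N) * Real.log (2 * D) <
          (4 * (D : ℝ) ^ (1 - 2 * δ)) * Real.log (2 * D) :=
          mul_lt_mul_of_pos_right (by linarith) hlog
      _ ≤ _ := by gcongr
  have e9 : (4 * (D : ℝ) ^ (1 - 2 * δ)) * (2 * (D : ℝ) ^ δ / δ) =
      8 / δ * (D : ℝ) ^ (1 - δ) := by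
    have : (D : ℝ) ^ (1 - δ) = (D : ℝ) ^ (1 - 2 * δ) * (D : ℝ) ^ δ := by
      rw [← Real.rpow_add (by linarith)]; congr 1; ring
    rw [this]; ring
  have e10 : (D : ℝ) = (D : ℝ) ^ (1 - δ) * (D : ℝ) ^ δ := by
    rw [← Real.rpow_add (by linarith)]
    simp
  have e11 : 8 / δ * (D : ℝ) ^ (1 - δ) ≤ (D : ℝ) / 3 * Real.log 4 := by
    have hp : 0 < (D : ℝ) ^ (1 - δ) := by positivity
    have h12 : 8 / δ ≤ (D : ℝ) ^ δ / 3 * Real.log 4 := by
      rw [div_le_iff₀ (by positivity)] at hx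
      rw [div_le_iff₀ hδ0]
      nlinarith
    calc 8 / δ * (D : ℝ) ^ (1 - δ) ≤ ((D : ℝ) ^ δ / 3 * Real.log 4) * (D : ℝ) ^ (1 - δ) := by
          gcongr
      _ = ((D : ℝ) ^ (1 - δ) * (D : ℝ) ^ δ) / 3 * Real.log 4 := by ring
      _ = (D : ℝ) / 3 * Real.log 4 := by rw [← e10]
  linarith

end Pool.Agent.VM.H39
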