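import Mathlib
import Pool.Agent.VM.Stmts

/-!
# SQN and TRV: nested residue classes and the trivial inequality
-/

set_option autoImplicit false

namespace Pool.Agent.VM.H39

open Pool.Agent.Helper69_Weyl (ee)

theorem mem_cl {m : ℕ} {c : ℤ} {s : Finset ℤ} {x : ℤ} :
    x ∈ cl m c s ↔ x ∈ s ∧ x ≡ c [ZMOD (m : ℤ)] := by
  simp [cl]

theorem G_empty (q : ℕ) {l : ℕ} (E : Fin l → ℤ → ℤ) (w : ℤ → ℂ) (ζ : Fin l → ℤ) :
    G q E ∅ w ζ = 0 := by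
  simp [G]

theorem mom_empty (q : ℕ) {l : ℕ} (E : Fin l → ℤ → ℤ) (r : ℕ) (hr : 1 ≤ r) (w : ℤ → ℂ) :
    mom q E r ∅ w = 0 := by
  unfold mom Av
  simp only [G_empty, norm_zero]
  rw [zero_pow (by omega)]
  simp

theorem mom_nonneg (q : ℕ) {l : ℕ} (E : Fin l → ℤ → ℤ) (r : ℕ) (s : Finset ℤ) (w : ℤ → ℂ) :
    0 ≤ mom q E r s w := by
  unfold mom Av
  positivity

theorem root_empty (q : ℕ) {l : ℕ} (E : Fin l → ℤ → ℤ) (r : ℕ) (hr : 1 ≤ r) (w : ℤ → ℂ) :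
    (mom q E r ∅ w) ^ (1 / (r : ℝ)) = 0 := by
  rw [mom_empty q E r hr w]
  apply Real.zero_rpow
  have : (0 : ℝ) < r := by exact_mod_cast hr
  positivity

/-- SQN -/
theorem sqn : SqnStmt := by
  intro q l E r m₁ m₂ s w hq hr hm₁ hm₂ hdvd
  unfold Sq
  rw [Finset.sum_comm]
  apply Finset.sum_congr rfl
  intro c₂ hc₂
  have hdz : (m₁ : ℤ) ∣ (m₂ : ℤ) := Int.natCast_dvd_natCast.2 hdvd
  rw [Finset.sum_eq_single (c₂ % m₁)]
  · congr 2
    ext x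
    rw [mem_cl, mem_cl, mem_cl]
    constructor
    · rintro ⟨⟨h1, _⟩, h3⟩
      exact ⟨h1, h3⟩
    · rintro ⟨h1, h2⟩
      refine ⟨⟨h1, ?_⟩, h2⟩
      have h3 : x ≡ (c₂ : ℤ) [ZMOD (m₁ : ℤ)] := h2.of_dvd hdz
      refine h3.trans ?_
      push_cast
      exact (Int.mod_modEq _ _).symm
  · intro c₁ hc₁ hne
    have : cl m₂ (c₂ : ℤ) (cl m₁ (c₁ : ℤ) s) = ∅ := by
      rw [Finset.eq_empty_iff_forall_notMem]
      intro x hx
      rw [mem_cl, mem_cl] at hx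
      obtain ⟨⟨_, h2⟩, h3⟩ := hx
      apply hne
      have h4 : (c₁ : ℤ) ≡ (c₂ : ℤ) [ZMOD (m₁ : ℤ)] := h2.symm.trans (h3.of_dvd hdz)
      have h5 : c₁ ≡ c₂ [MOD m₁] := Int.natCast_modEq_iff.1 h4
      rw [← Nat.mod_eq_of_lt (Finset.mem_range.1 hc₁)]
      exact h5
    rw [this]
    exact root_empty q E r hr w
  · intro h
    exact absurd (Finset.mem_range.2 (Nat.mod_lt _ hm₁)) h

theorem G_cl (q : ℕ) {l : ℕ} (E : Fin l → ℤ → ℤ) (m : ℕ) (hm : 0 < m) (s : Finset ℤ) (w : ℤ → ℂ)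
    (ζ : Fin l → ℤ) : G q E s w ζ = ∑ c ∈ Finset.range m, G q E (cl m (c : ℤ) s) w ζ := by
  unfold G
  have h1 : ∀ c ∈ Finset.range m, cl m (c : ℤ) s =
      s.filter (fun x => (x % (m : ℤ)).toNat = c) := by
    intro c hc
    ext x
    rw [mem_cl, Finset.mem_filter]
    have hc' := Finset.mem_range.1 hc
    have hm' : (0 : ℤ) < m := by exact_mod_cast hm
    have e1 := Int.emod_nonneg x hm'.ne'
    have e2 : (c : ℤ) % (m : ℤ) = c := Int.emod_eq_of_lt (by positivity) (by exact_mod_cast hc')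
    constructor
    · rintro ⟨h1, h2⟩
      refine ⟨h1, ?_⟩
      have h3 : x % (m : ℤ) = (c : ℤ) % (m : ℤ) := h2
      rw [h3, e2]; simp
    · rintro ⟨h1, h2⟩
      refine ⟨h1, ?_⟩
      change x % (m : ℤ) = (c : ℤ) % (m : ℤ)
      rw [e2, ← h2]
      exact (Int.toNat_of_nonneg e1).symm
  have h2 : ∑ c ∈ Finset.range m, ∑ x ∈ cl m (c : ℤ) s,
      w x * ee (((∑ j, ζ j * E j x : ℤ) : ℝ) / (q : ℝ)) =
      ∑ c ∈ Finset.range m, ∑ x ∈ s.filter (fun x => (x % (m : ℤ)).toNat = c),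
      w x * ee (((∑ j, ζ j * E j x : ℤ) : ℝ) / (q : ℝ)) := by
    apply Finset.sum_congr rfl
    intro c hc
    rw [h1 c hc]
  rw [h2]
  symm
  apply Finset.sum_fiberwise_of_maps_to
  intro x hx
  have hm' : (0 : ℤ) < m := by exact_mod_cast hm
  have e1 := Int.emod_nonneg x hm'.ne'
  have e2 := Int.emod_lt_of_pos x hm'
  rw [Finset.mem_range]
  omega

/-- TRV -/
theorem trv (mnk : MnkStmt) : TrvStmt := by
  intro q l E r m₁ m c s w hq hr hm₁ hm hIn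
  set M := m₁ * m with hM
  have hM0 : 0 < M := Nat.mul_pos hm₁ hm
  -- the relevant classes
  set c' : ℕ := (c % (m₁ : ℤ)).toNat with hc'
  have hm₁' : (0 : ℤ) < m₁ := by exact_mod_cast hm₁
  have hc'1 : (c' : ℤ) = c % (m₁ : ℤ) := Int.toNat_of_nonneg (Int.emod_nonneg c hm₁'.ne')
  have hc'2 : c' < m₁ := by
    have := Int.emod_lt_of_pos c hm₁'
    omega
  set T : Finset ℕ := (Finset.range m).image (fun i => c' + m₁ * i) with hT
  have hTsub : T ⊆ Finset.range M := by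
    intro x hx
    rw [hT, Finset.mem_image] at hx
    obtain ⟨i, hi, rfl⟩ := hx
    rw [Finset.mem_range] at hi ⊢
    calc c' + m₁ * i < m₁ + m₁ * i := by omega
      _ = m₁ * (i + 1) := by ring
      _ ≤ m₁ * m := by gcongr; omega
  have hTcard : T.card ≤ m := (Finset.card_image_le).trans (by simp)
  have hempty : ∀ x ∈ Finset.range M, x ∉ T → cl M (x : ℤ) s = ∅ := by
    intro x hx hxT
    rw [Finset.eq_empty_iff_forall_notMem]
    intro y hy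
    rw [mem_cl] at hy
    apply hxT
    have h1 : y ≡ c [ZMOD (m₁ : ℤ)] := hIn y hy.1
    have h2 : y ≡ (x : ℤ) [ZMOD (m₁ : ℤ)] := hy.2.of_dvd (by rw [hM]; push_cast; exact dvd_mul_right _ _)
    have h3 : (x : ℤ) ≡ (c' : ℤ) [ZMOD (m₁ : ℤ)] := by
      rw [hc'1]
      exact (h2.symm.trans h1).trans (Int.mod_modEq _ _).symm
    have h4 : x ≡ c' [MOD m₁] := Int.natCast_modEq_iff.1 h3
    have h5 : x % m₁ = c' := by
      have : x % m₁ = c' % m₁ := h4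
      rw [this, Nat.mod_eq_of_lt hc'2]
    rw [hT, Finset.mem_image]
    refine ⟨x / m₁, ?_, ?_⟩
    · rw [Finset.mem_range]
      exact Nat.div_lt_of_lt_mul (Finset.mem_range.1 hx)
    · rw [← h5]; exact Nat.mod_add_div x m₁
  -- pointwise
  have hpt : ∀ ζ : Fin l → ℤ, ‖G q E s w ζ‖ ^ (2 * r) ≤
      (m : ℝ) ^ r * (∑ i ∈ T, ‖G q E (cl M (i : ℤ) s) w ζ‖ ^ 2) ^ r := by
    intro ζ
    have h1 : G q E s w ζ = ∑ i ∈ T, G q E (cl M (i : ℤ) s) w ζ := by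
      rw [G_cl q E M hM0 s w ζ]
      symm
      apply Finset.sum_subset hTsub
      intro x hx hxT
      rw [hempty x hx hxT, G_empty]
    have h2 : ‖G q E s w ζ‖ ≤ ∑ i ∈ T, ‖G q E (cl M (i : ℤ) s) w ζ‖ := by
      rw [h1]; exact norm_sum_le _ _
    have h3 : ‖G q E s w ζ‖ ^ 2 ≤ (m : ℝ) * ∑ i ∈ T, ‖G q E (cl M (i : ℤ) s) w ζ‖ ^ 2 := by
      calc ‖G q E s w ζ‖ ^ 2 ≤ (∑ i ∈ T, ‖G q E (cl M (i : ℤ) s) w ζ‖) ^ 2 := by gcongr
        _ ≤ (T.card : ℝ) * ∑ i ∈ T, ‖G q E (cl M (i : ℤ) s) w ζ‖ ^ 2 := sq_sum_le_card_mul_sum_sq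
        _ ≤ (m : ℝ) * ∑ i ∈ T, ‖G q E (cl M (i : ℤ) s) w ζ‖ ^ 2 := by
          gcongr
    calc ‖G q E s w ζ‖ ^ (2 * r) = (‖G q E s w ζ‖ ^ 2) ^ r := by rw [pow_mul]
      _ ≤ ((m : ℝ) * ∑ i ∈ T, ‖G q E (cl M (i : ℤ) s) w ζ‖ ^ 2) ^ r := by gcongr
      _ = _ := by rw [mul_pow]
  have hav : mom q E r s w ≤ (m : ℝ) ^ r *
      Av q l (fun ζ => (∑ i ∈ T, ‖G q E (cl M (i : ℤ) s) w ζ‖ ^ 2) ^ r) := by
    unfold mom Av
    rw [← mul_div_assoc, Finset.mul_sum]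
    apply div_le_div_of_nonneg_right _ (by positivity)
    apply Finset.sum_le_sum
    intro ζ _
    exact hpt _
  have hmn := mnk q l r T (fun i ζ => ‖G q E (cl M (i : ℤ) s) w ζ‖ ^ 2) hq hr
    (fun i ζ => by positivity)
  refine hav.trans ?_
  refine mul_le_mul_of_nonneg_left (hmn.trans ?_) (by positivity)
  have hsum : ∑ i ∈ T, (Av q l (fun ζ => (‖G q E (cl M (i : ℤ) s) w ζ‖ ^ 2) ^ r)) ^ (1 / (r : ℝ)) ≤
      Sq q E r M s w := by
    unfold Sq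
    have e1 : ∀ i : ℕ, Av q l (fun ζ => (‖G q E (cl M (i : ℤ) s) w ζ‖ ^ 2) ^ r) =
        mom q E r (cl M (i : ℤ) s) w := by
      intro i
      unfold mom
      congr 1
      funext ζ
      rw [pow_mul]
    simp only [e1]
    apply Finset.sum_le_sum_of_subset_of_nonneg hTsub
    intro i _ _
    exact Real.rpow_nonneg (mom_nonneg _ _ _ _ _) _
  apply pow_le_pow_left₀ _ hsum
  apply Finset.sum_nonneg
  intro i _
  apply Real.rpow_nonneg
  unfold Av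
  positivity

end Pool.Agent.VM.H39
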